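import Pool.Agent.SGL.StmtsU

set_option autoImplicit false

/-!
# Squad SGL, row ARL: depths for the edges of the level `0`
-/

noncomputable section

namespace Pool.Agent.SGL.H16

open Pool.Agent.SGE Pool.Agent.SGP Pool.Agent.SGY Pool.Agent.SGD Pool.Agent.SGL

theorem ib_t {n : ℕ} (t : Fin n) (lev pos : Fin n → ℕ) : ib t lev pos t = 0 := by
  unfold ib
  rw [if_pos rfl]

theorem ib_le {n : ℕ} {t : Fin n} {lev pos : Fin n → ℕ} {u v : Fin n} (hu : u ≠ t) (hv : v ≠ t)
    (h : pos u ≤ pos v) : ib t lev pos v ≤ ib t lev pos u := by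
  classical
  unfold ib
  rw [if_neg hu, if_neg hv]
  refine Finset.card_le_card ?_
  intro w hw
  rw [Finset.mem_filter] at hw ⊢
  exact ⟨hw.1, hw.2.1, hw.2.2.1, h.trans hw.2.2.2⟩

theorem ib_lt {n : ℕ} {t : Fin n} {lev pos : Fin n → ℕ} {u v : Fin n} (hu : u ≠ t) (hv : v ≠ t)
    (hl : lev u = 0) (h : pos u < pos v) : ib t lev pos v < ib t lev pos u := by
  classical
  unfold ib
  rw [if_neg hu, if_neg hv]
  refine Finset.card_lt_card ?_
  rw [Finset.ssubset_iff_of_subset]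
  · refine ⟨u, ?_, ?_⟩
    · rw [Finset.mem_filter]
      exact ⟨Finset.mem_univ _, hu, hl, le_refl _⟩
    · intro hm
      rw [Finset.mem_filter] at hm
      have := hm.2.2.2
      omega
  · intro w hw
    rw [Finset.mem_filter] at hw ⊢
    exact ⟨hw.1, hw.2.1, hw.2.2.1, h.le.trans hw.2.2.2⟩

theorem ib_pos {n : ℕ} {t : Fin n} {lev pos : Fin n → ℕ} {u : Fin n} (hu : u ≠ t)
    (hl : lev u = 0) : 0 < ib t lev pos u := by
  classical
  unfold ib
  rw [if_neg hu, Finset.card_pos]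
  exact ⟨u, by rw [Finset.mem_filter]; exact ⟨Finset.mem_univ _, hu, hl, le_refl _⟩⟩

theorem ib_bound {n : ℕ} {t : Fin n} {lev pos : Fin n → ℕ} {k : ℕ}
    (hk : (Finset.univ.filter fun w : Fin n => w ≠ t ∧ lev w = 0).card = k + 1) {u : Fin n}
    (hu : u ≠ t) : ib t lev pos u ≤ k + 1 := by
  classical
  unfold ib
  rw [if_neg hu, ← hk]
  refine Finset.card_le_card ?_
  intro w hw
  rw [Finset.mem_filter] at hw ⊢
  exact ⟨hw.1, hw.2.1, hw.2.2.1⟩

/-- **Row ARL.** -/
theorem arl (hdp : Dp2Stmt) : ArlStmt := by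
  intro n G t h lev pos k hG hk
  obtain ⟨D, hD⟩ := hdp k (fun i j => ∃ u v : Fin n, ib t lev pos v = i ∧ ib t lev pos u = j ∧
    G.Adj u v ∧ u ≠ t ∧ lev u = 0 ∧ (v = t ∨ (lev v = 0 ∧ pos u < pos v))) (by
    rintro i j l m hij hjl hlm hm ⟨⟨u1, v1, a1, b1, c1, d1, e1, f1⟩,
      ⟨u2, v2, a2, b2, c2, d2, e2, f2⟩⟩
    have hv2 : v2 ≠ t := by
      intro h0
      rw [h0, ib_t] at a2
      omega
    have g2 : lev v2 = 0 ∧ pos u2 < pos v2 := by
      rcases f2 with h0 | h0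
      · exact absurd h0 hv2
      · exact h0
    have p1 : pos u2 < pos u1 := by
      by_contra hc
      have := ib_le (lev := lev) d1 d2 (not_lt.1 hc)
      omega
    have p2 : pos u1 < pos v2 := by
      by_contra hc
      have := ib_le (lev := lev) hv2 d1 (not_lt.1 hc)
      omega
    have p3 : v1 = t ∨ (lev v1 = 0 ∧ pos v2 < pos v1) := by
      by_cases hv1 : v1 = t
      · exact Or.inl hv1
      · refine Or.inr ⟨?_, ?_⟩
        · rcases f1 with h0 | h0
          · exact absurd h0 hv1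
          · exact h0.1
        · by_contra hc
          have := ib_le (lev := lev) hv1 hv2 (not_lt.1 hc)
          omega
    exact hG.one 0 (Or.inl rfl) u2 u1 v2 v1 d2 d1 hv2 e2 e1 g2.1 p3 p1 p2 ⟨c2, c1⟩)
  refine ⟨D, fun u v huv hu hl hv => ?_⟩
  have h1 : ib t lev pos v < ib t lev pos u := by
    by_cases hvt : v = t
    · rw [hvt, ib_t]
      exact ib_pos hu hl
    · rcases hv with h0 | h0
      · exact absurd h0 hvt
      · exact ib_lt hu hvt hl h0.2
  have h2 : ib t lev pos u ≤ k + 1 := ib_bound hk hu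
  exact ⟨h1, h2, hD _ _ h1 h2 ⟨u, v, rfl, rfl, huv, hu, hl, hv⟩⟩

end Pool.Agent.SGL.H16
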