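import Pool.Agent.SGL.StmtsG

set_option autoImplicit false

namespace Pool.Agent.SGL.H16

open Pool.Agent.SGE Pool.Agent.SGP Pool.Agent.SGY Pool.Agent.SGD

theorem nxl (hN : NxvStmt) : NxlStmt := by
  intro V W G t lev pos a c R s ρ f ψ hL hG hinj hc ht hψ hon hpos hcc x y z w hxy hzw
  -- the order of the columns
  have hpos' : ∀ u v, u ≠ t → v ≠ t → lev u = lev v → ρ (ψ u) < ρ (ψ v) → pos u < pos v := by
    intro u v hu hv hl hr
    rcases lt_trichotomy (pos u) (pos v) with h | h | h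
    · exact h
    · have := hL.inj u v hu hv hl h
      rw [this] at hr
      exact absurd hr (lt_irrefl _)
    · have := hpos v u hv hu hl.symm h
      omega
  have hposle : ∀ u v, u ≠ t → v ≠ t → lev u = lev v → pos u ≤ pos v → ρ (ψ u) ≤ ρ (ψ v) := by
    intro u v hu hv hl hr
    rcases lt_or_eq_of_le hr with h | h
    · exact (hpos u v hu hv hl h).le
    · rw [hL.inj u v hu hv hl h]
  set S : V → V → Prop := fun p q => ∃ u v, u ≠ t ∧ v ≠ t ∧ G.Adj u v ∧ lev v = lev u + 1 ∧
    ψ u = p ∧ ψ v = q with hS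
  have hSM : SMon s ρ S := by
    rintro p q p' q' ⟨u, v, hu, hv, huv, hl, rfl, rfl⟩ ⟨u', v', hu', hv', huv', hl', rfl, rfl⟩ hs hr
    rw [(hψ u hu).2, (hψ u' hu').2] at hs
    have h1 := hpos' u u' hu hu' hs hr
    have h2 := hL.mono u v u' v' hu hv hu' hv' huv huv' hl hs.symm (by omega) h1
    exact hposle v v' hv hv' (by omega) h2
  have key2 : ∀ u v, u ≠ t → v ≠ t → G.Adj u v → lev u ≤ lev v →
      LE a c R s ρ S (ψ u) (ψ v) ∨ LE a c R s ρ S (ψ v) (ψ u) := by
    intro u v hu hv huv hle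
    have hne : u ≠ v := huv.ne
    rcases hL.edge u v hu hv huv hle with ⟨h1, h2⟩ | h1 | ⟨h1, h2⟩
    · rcases lt_trichotomy (pos u) (pos v) with h | h | h
      · left
        refine LE.hh (hψ u hu).1 (hψ v hv).1 (by rw [(hψ u hu).2, (hψ v hv).2, h1])
          (hpos u v hu hv h1 h) ?_
        intro r hr hsr hrr
        obtain ⟨w, hw, rfl⟩ := hon r hr
        rw [(hψ u hu).2, (hψ w hw).2] at hsr
        exact (h2 w hw hsr).1 ⟨hpos' u w hu hw hsr.symm hrr.1,
          hpos' w v hw hv (hsr.trans h1) hrr.2⟩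
      · exact absurd (hL.inj u v hu hv h1 h) hne
      · right
        refine LE.hh (hψ v hv).1 (hψ u hu).1 (by rw [(hψ u hu).2, (hψ v hv).2, h1])
          (hpos v u hv hu h1.symm h) ?_
        intro r hr hsr hrr
        obtain ⟨w, hw, rfl⟩ := hon r hr
        rw [(hψ v hv).2, (hψ w hw).2] at hsr
        exact (h2 w hw (hsr.trans h1.symm)).2 ⟨hpos' v w hv hw hsr.symm hrr.1,
          hpos' w u hw hu (hsr.trans h1.symm) hrr.2⟩
    · left
      exact LE.uu (hψ u hu).1 (hψ v hv).1 (by rw [(hψ u hu).2, (hψ v hv).2, h1])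
        ⟨u, v, hu, hv, huv, h1, rfl, rfl⟩
    · rcases lt_or_eq_of_le hle with h | h
      · left
        have hcu : ψ u = c := hcc u hu h1
        rw [hcu]
        refine LE.cc hc (hψ v hv).1 ?_ ?_
        · rw [← hcu, (hψ u hu).2, (hψ v hv).2]
          exact h
        · intro r hr hsr
          obtain ⟨w, hw, rfl⟩ := hon r hr
          rw [(hψ v hv).2, (hψ w hw).2] at hsr
          exact hposle v w hv hw hsr.symm (h2 w hw hsr)
      · exfalso
        have h3 := (h1 v hv).2 h.symm
        have h4 := h2 u hu h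
        exact hne (hL.inj u v hu hv h (le_antisymm h3 h4))
  have keyt : ∀ u, G.Adj u t → LE a c R s ρ S (ψ u) (ψ t) := by
    intro u hut
    have hu : u ≠ t := hut.ne
    rw [ht]
    refine LE.aa (hψ u hu).1 ?_
    intro r hr hsr
    obtain ⟨w, hw, rfl⟩ := hon r hr
    rw [(hψ u hu).2, (hψ w hw).2] at hsr
    exact hposle w u hw hu hsr (hL.last u hut w hw hsr)
  have key : ∀ u v, G.Adj u v →
      LE a c R s ρ S (ψ u) (ψ v) ∨ LE a c R s ρ S (ψ v) (ψ u) := by
    intro u v huv
    by_cases hv : v = t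
    · subst hv
      exact Or.inl (keyt u huv)
    · by_cases hu : u = t
      · subst hu
        exact Or.inr (keyt v huv.symm)
      · rcases le_total (lev u) (lev v) with h | h
        · exact key2 u v hu hv huv h
        · exact (key2 v u hv hu huv.symm h).symm
  have hX := hN a c R s ρ S f hG hinj hSM
  intro hx
  rcases key x y hxy with h1 | h1 <;> rcases key z w hzw with h2 | h2
  · exact hX _ _ _ _ h1 h2 hx
  · exact hX _ _ _ _ h1 h2 (xs_swap (xs_rev (xs_swap hx)))
  · exact hX _ _ _ _ h1 h2 (xs_rev hx)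
  · exact hX _ _ _ _ h1 h2 (xs_rev (xs_swap (xs_rev (xs_swap hx))))

end Pool.Agent.SGL.H16
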