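import Pool.Agent.SGL.StmtsS
import Pool.Agent.Helper56_SGP.CTR

/-!
# Squad SGL, row PAT
-/

set_option autoImplicit false

namespace Pool.Agent.SGL.H16

open Pool.Agent.SGE Pool.Agent.SGP Pool.Agent.SGY Pool.Agent.SGD

/-- **PAT** -/
theorem pat (arc : ArcStmt) (clo : CloStmt) (lct : LctStmt) : PatStmt := by
  intro V _ a b c E F K₀ K D₁ D₂ C₁ C₂ h₀ h hKK P p v q Q Y hC hch hnd hY
  by_cases hex : ∃ y, E v y ∧ y ∈ K₀ ∪ {c}
  · have hn := h.n1.nd
    have hhd := h.n1.hd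
    have hls := h.n1.ls
    rw [hC] at hn hhd hls
    have hvC : v ∈ C₁ := by rw [hC]; simp
    have hpC : p ∈ C₁ := by rw [hC]; simp
    obtain ⟨y0, hy0⟩ := SGP.H56.contour_nb h.n1 hvC
    obtain ⟨y1, hy1⟩ := SGP.H56.contour_nb h.n1 hpC
    have hvK : v ∉ K ∪ {c} := hy0.2.1
    have hpK : p ∉ K ∪ {c} := hy1.2.1
    have hsub : ∀ y, y ∈ K₀ ∪ {c} → y ∈ K ∪ {c} := fun y hy => hy.imp (fun h1 => hKK h1) id
    have hvK₀ : v ∉ K₀ ∪ {c} := fun hv => hvK (hsub v hv)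
    have hn2 : (P ++ p :: v :: q :: Q).Nodup := hn
    rw [List.nodup_append, List.nodup_cons, List.nodup_cons, List.nodup_cons] at hn2
    obtain ⟨_, ⟨hp1, hv1, hq1, _⟩, hdis⟩ := hn2
    have hva : v ≠ a := by
      rintro rfl
      cases P with
      | nil =>
        rw [List.nil_append, List.head?_cons, Option.some.injEq] at hhd
        exact hp1 (by simp [hhd])
      | cons s P =>
        rw [List.cons_append, List.head?_cons, Option.some.injEq] at hhd
        exact hdis s (by simp) v (by simp) hhd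
    have hvb : v ≠ b := by
      rintro rfl
      have h1 : (P ++ p :: v :: q :: Q) = (P ++ [p, v]) ++ (q :: Q) := by simp
      rw [h1, List.getLast?_append_of_ne_nil _ (by simp)] at hls
      exact hv1 (List.mem_of_getLast? hls)
    have hrel₀ := h₀.r1 v ⟨y0, hy0.1⟩ hvK₀
    have hvD : v ∈ D₁ := by
      by_contra hvD
      obtain ⟨y, hy1, hy2⟩ := hex
      exact clo h₀ v hvD hrel₀ y hy1 hy2
    obtain ⟨A0, B0, hD⟩ := List.append_of_mem hvD
    have hhd₀ := h₀.n1.hd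
    have hls₀ := h₀.n1.ls
    rw [hD] at hhd₀ hls₀
    obtain ⟨P₀, p₀, hA0⟩ : ∃ P₀ p₀, A0 = P₀ ++ [p₀] := by
      rcases List.eq_nil_or_concat A0 with h1 | ⟨P₀, p₀, h1⟩
      · exfalso
        rw [h1, List.nil_append, List.head?_cons, Option.some.injEq] at hhd₀
        exact hva hhd₀
      · exact ⟨P₀, p₀, by rw [h1, List.concat_eq_append]⟩
    obtain ⟨q₀, Q₀, hB0⟩ : ∃ q₀ Q₀, B0 = q₀ :: Q₀ := by
      cases B0 with
      | nil =>
        exfalso
        rw [List.getLast?_append_of_ne_nil _ (by simp), List.getLast?_singleton,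
          Option.some.injEq] at hls₀
        exact hvb hls₀
      | cons q₀ Q₀ => exact ⟨q₀, Q₀, rfl⟩
    have hD' : D₁ = P₀ ++ p₀ :: v :: q₀ :: Q₀ := by
      rw [hD, hA0, hB0]
      simp
    obtain ⟨Y₀, _, hch₀, _, hY₀⟩ := arc h₀ P₀ p₀ v q₀ Q₀ hD'
    have h1 : (Y ++ [p]).IsChain (F v) := by
      have e : q :: (Y ++ [p]) = [q] ++ (Y ++ [p]) := rfl
      rw [e] at hch
      exact hch.right_of_append
    have h2 : p ∉ Y := fun hp => hpK ((hY p).1 hp).2
    have h3 : Y₀.IsChain (F v) := by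
      have e : q₀ :: (Y₀ ++ [p₀]) = [q₀] ++ (Y₀ ++ [p₀]) := rfl
      rw [e] at hch₀
      exact hch₀.right_of_append.left_of_append
    have h4 : ∀ y ∈ Y₀, y ∈ Y := fun y hy =>
      (hY y).2 ⟨((hY₀ y).1 hy).1, hsub y ((hY₀ y).1 hy).2⟩
    obtain ⟨A, B, hAB⟩ := lct (F v) (fun x y z hxy hxz => h.nt.fn _ _ _ _ hxy hxz) p Y Y₀ h1 h2
      h3 h4
    refine ⟨A, Y₀, B, hAB, fun y hy => ((hY₀ y).1 hy).2, fun y hy hyK => ?_⟩
    have h5 : y ∈ Y := by
      rw [hAB]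
      simp only [List.mem_append] at hy ⊢
      tauto
    have h6 : y ∈ Y₀ := (hY₀ y).2 ⟨((hY y).1 h5).1, hyK⟩
    rw [hAB] at hnd
    rw [List.nodup_append, List.nodup_append] at hnd
    obtain ⟨_, ⟨_, _, hd2⟩, hd1⟩ := hnd
    rcases List.mem_append.1 hy with h7 | h7
    · exact hd1 y h7 y (List.mem_append_left _ h6) rfl
    · exact hd2 y h6 y h7 rfl
  · refine ⟨Y, [], [], by simp, by simp, fun y hy hyK => hex ⟨y, ?_, hyK⟩⟩
    rw [List.append_nil] at hy
    exact ((hY y).1 hy).1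

end Pool.Agent.SGL.H16
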